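import Pool.Agent.Y706.BI.Stm

/-!
# Project BI: the critical points have positive pairing
-/

set_option autoImplicit false

namespace Pool.Agent.Y672.BI

open Pool.Agent.W277.UB Pool.Agent.W277.UG Pool.Agent.W277.UH Pool.Agent.Y706.BI

universe u

section
variable {Ω : Type u} [NormedField Ω] [IsUltrametricDist Ω]

lemma uadd (a b : Ω) : ‖a + b‖ ≤ max ‖a‖ ‖b‖ := IsUltrametricDist.norm_add_le_max a b

lemma uadd_eq {a b : Ω} (h : ‖a‖ < ‖b‖) : ‖a + b‖ = ‖b‖ := by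
  apply le_antisymm
  · refine (uadd a b).trans ?_
    rw [max_eq_right h.le]
  · have h1 : ‖b‖ ≤ max ‖a + b‖ ‖a‖ := by
      have h2 := uadd (a + b) (-a)
      rw [norm_neg, add_neg_cancel_comm] at h2
      exact h2
    rcases le_max_iff.1 h1 with h2 | h2
    · exact h2
    · exact absurd h2 (not_le.2 h)

lemma wd_eq {X Y U : Ω × Ω} (hX : ‖X‖ = 1) (hY : ‖Y‖ = 1) (hU : ‖U‖ = 1)
    (h : ‖wd X U‖ < ‖wd U Y‖) : ‖wd X Y‖ = ‖wd U Y‖ := by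
  apply le_antisymm
  · refine (wd_ultra hX hY hU).trans ?_
    rw [max_eq_right h.le]
  · have h1 := wd_ultra hU hY hX
    rw [wd_comm U X, norm_neg] at h1
    rcases le_max_iff.1 h1 with h2 | h2
    · exact absurd h2 (not_le.2 h)
    · exact h2

lemma wd_le_one {X Y : Ω × Ω} (hX : ‖X‖ = 1) (hY : ‖Y‖ = 1) : ‖wd X Y‖ ≤ 1 := by
  have := norm_wd_le X Y
  rwa [hX, hY, mul_one] at this

/-- a vector close to `(ε, 1)` -/
lemma near {ε : Ω} {X : Ω × Ω} (hε : ‖ε‖ = 1) (h2 : ‖(2 : Ω)‖ = 1) (hX : ‖X‖ = 1)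
    (hn : ‖X.1 - ε * X.2‖ < 1) : ‖X.2‖ = 1 ∧ ‖X.1 + ε * X.2‖ = 1 := by
  have hX2 : ‖X.2‖ ≤ 1 := hX ▸ norm_snd_le X
  have h1 : ‖X.2‖ = 1 := by
    by_contra hne
    have hlt : ‖X.2‖ < 1 := lt_of_le_of_ne hX2 hne
    have h3 : ‖ε * X.2‖ < 1 := by rw [norm_mul, hε, one_mul]; exact hlt
    have h4 : ‖X.1‖ < 1 := by
      have h5 := uadd (X.1 - ε * X.2) (ε * X.2)
      rw [sub_add_cancel] at h5
      exact lt_of_le_of_lt h5 (max_lt hn h3)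
    have h6 : ‖X‖ < 1 := by
      rw [Prod.norm_def]
      exact max_lt h4 hlt
    linarith
  refine ⟨h1, ?_⟩
  have h3 : ‖2 * (ε * X.2)‖ = 1 := by rw [norm_mul, norm_mul, h2, hε, h1]; norm_num
  have h4 : ‖(X.1 - ε * X.2) + 2 * (ε * X.2)‖ = 1 := by
    rw [uadd_eq (by rw [h3]; exact hn), h3]
  rw [← h4]
  congr 1
  ring

/-- the shape of the map for `d = 2` -/
lemma form [IsAlgClosed Ω] (T : BB Ω) (hd : T.S.d = 2) (h0 : 0 < T.ρ) :
    ∃ η : Ω, ‖η‖ = 1 ∧ (∀ X : Ω × Ω, ‖T.S.F X‖ =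
      max (‖X.1 - η * X.2‖ * ‖X.1 + η * X.2‖) (Real.exp (-(2 * T.ρ)) * ‖X.2‖ ^ 2)) ∧
    (∀ X : Ω × Ω, ‖wd (T.S.F X) T.U‖ = Real.exp (-(2 * T.ρ)) * ‖X.2‖ ^ 2) ∧
    ∀ X X' : Ω × Ω, ‖wd (T.S.F X) (T.S.F X')‖ =
      Real.exp (-(2 * T.ρ)) * ‖wd X X'‖ * ‖X.1 * X'.2 + X'.1 * X.2‖ := by
  have hF : ∀ X, T.S.F X = X.1 ^ 2 • T.U + X.2 ^ 2 • T.V := by
    intro X
    have := T.hF X
    rwa [hd] at this
  have hp1 : Real.exp (-(2 * T.ρ)) < 1 := by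
    rw [Real.exp_lt_one_iff]
    linarith
  have hVU : ‖wd T.V T.U‖ = Real.exp (-(2 * T.ρ)) := by rw [wd_comm, norm_neg, T.hρ]
  have hc : ∀ X : Ω × Ω, ‖wd (T.S.F X) T.U‖ = Real.exp (-(2 * T.ρ)) * ‖X.2‖ ^ 2 := by
    intro X
    rw [hF, wd_add_left, wd_smul_left, wd_smul_left, wd_self, mul_zero, zero_add, norm_mul,
      norm_pow, hVU, mul_comm]
  obtain ⟨U', hU', hUU'⟩ : ∃ U' : Ω × Ω, ‖U'‖ = 1 ∧ ‖wd T.U U'‖ = 1 := by
    have h1 := T.hU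
    rw [Prod.norm_def] at h1
    rcases le_total ‖T.U.1‖ ‖T.U.2‖ with h | h
    · rw [max_eq_right h] at h1
      exact ⟨(1, 0), norm_e1, by unfold wd; simp [h1]⟩
    · rw [max_eq_left h] at h1
      exact ⟨(0, 1), norm_e2, by unfold wd; simp [h1]⟩
  have hUU0 : wd T.U U' ≠ 0 := by
    intro h
    rw [h, norm_zero] at hUU'
    exact zero_ne_one hUU'
  have hVU' : ‖wd T.V U'‖ = 1 := by
    apply le_antisymm (wd_le_one T.hV hU')
    have h1 := norm_le_of_wd T.hU hU' hUU' T.V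
    rw [T.hV, hVU] at h1
    rcases le_max_iff.1 h1 with h2 | h2
    · linarith
    · exact h2
  obtain ⟨η, hη⟩ := IsAlgClosed.exists_pow_nat_eq (-(wd T.V U' / wd T.U U')) (n := 2) (by norm_num)
  have hη1 : ‖η‖ = 1 := by
    have h1 := congrArg norm hη
    rw [norm_pow, norm_neg, norm_div, hVU', hUU', div_one] at h1
    exact (pow_eq_one_iff_of_nonneg (norm_nonneg _) (by norm_num)).1 h1
  refine ⟨η, hη1, ?_, hc, ?_⟩
  · intro X
    have h1 : wd (T.S.F X) U' = wd T.U U' * ((X.1 - η * X.2) * (X.1 + η * X.2)) := by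
      rw [hF, wd_add_left, wd_smul_left, wd_smul_left]
      have h2 : (X.1 - η * X.2) * (X.1 + η * X.2) = X.1 ^ 2 - η ^ 2 * X.2 ^ 2 := by ring
      rw [h2, hη]
      field_simp
      ring
    have h2 : ‖wd (T.S.F X) U'‖ = ‖X.1 - η * X.2‖ * ‖X.1 + η * X.2‖ := by
      rw [h1, norm_mul, hUU', one_mul, norm_mul]
    rw [← h2, ← hc X]
    apply le_antisymm
    · rw [max_comm]
      exact norm_le_of_wd T.hU hU' hUU' _
    · apply max_le
      · have := norm_wd_le (T.S.F X) U'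
        rwa [hU', mul_one] at this
      · have := norm_wd_le (T.S.F X) T.U
        rwa [T.hU, mul_one] at this
  · intro X X'
    have h1 : wd (T.S.F X) (T.S.F X') =
        wd T.U T.V * (wd X X' * (X.1 * X'.2 + X'.1 * X.2)) := by
      rw [hF, hF]
      unfold wd
      simp only [Prod.fst_add, Prod.snd_add, Prod.smul_fst, Prod.smul_snd, smul_eq_mul]
      ring
    rw [h1, norm_mul, norm_mul, T.hρ, mul_assoc]

lemma wd_F (S : HS Ω) (X : UV Ω) (W : Ω × Ω) :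
    ‖wd (S.F X.1) W‖ = ‖S.F X.1‖ * ‖wd (fU S X).1 W‖ := by
  obtain ⟨t, -, h1, h2⟩ := nrm_spec (S.F X.1) (S.nz X.1 X.ne)
  have h3 : S.F X.1 = t • (fU S X).1 := h1
  conv_lhs => rw [h3]
  rw [wd_smul_left, norm_mul, h2]

lemma F_pos (S : HS Ω) (X : UV Ω) : 0 < ‖S.F X.1‖ := norm_pos_iff.2 (S.nz X.1 X.ne)

/-- the inequality for `d = 2` -/
lemma sharp [IsAlgClosed Ω] (h2 : ‖(2 : Ω)‖ = 1) (T : BB Ω) (hd : T.S.d = 2) (h0 : 0 < T.ρ)
    (hb : ∀ X : UV Ω, -(2 * T.ρ) ≤ hh T.S X ∧ hh T.S X ≤ 0) (Uu Vu : UV Ω)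
    (hU : Uu.1 = T.U) (hV : Vu.1 = T.V) :
    -(5 * T.ρ) ≤ hh T.S Uu + hh T.S Vu + (hh T.S (fU T.S Uu) + hh T.S (fU T.S Vu)) / 2 := by
  obtain ⟨η, hη, hF0, hc, hdd⟩ := form T hd h0
  have bU := hb Uu
  have bV := hb Vu
  have bfU := hb (fU T.S Uu)
  have bfV := hb (fU T.S Vu)
  by_cases hU0 : hh T.S Uu = 0
  · rw [hU0]
    linarith [bV.1, bfU.1, bfV.1]
  have hUneg : hh T.S Uu < 0 := lt_of_le_of_ne bU.2 hU0
  obtain ⟨p, hp⟩ : ∃ p, p = Real.exp (-(2 * T.ρ)) := ⟨_, rfl⟩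
  have hp1 : p < 1 := by
    rw [hp, Real.exp_lt_one_iff]
    linarith
  have hp0 : 0 < p := hp ▸ Real.exp_pos _
  have hlp : Real.log p = -(2 * T.ρ) := by rw [hp, Real.log_exp]
  rw [← hp] at hF0 hc hdd
  have hFU1 : ‖T.S.F Uu.1‖ < 1 := by
    by_contra hcon
    exact absurd (Real.log_nonneg (not_lt.1 hcon)) (not_le.2 hUneg)
  -- the choice of the sign
  obtain ⟨ε, hε, hF, hn⟩ : ∃ ε : Ω, ‖ε‖ = 1 ∧ (∀ X : Ω × Ω, ‖T.S.F X‖ =
      max (‖X.1 - ε * X.2‖ * ‖X.1 + ε * X.2‖) (p * ‖X.2‖ ^ 2)) ∧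
      ‖Uu.1.1 - ε * Uu.1.2‖ < 1 := by
    have h1 := hF0 Uu.1
    have h3 : ‖Uu.1.1 - η * Uu.1.2‖ * ‖Uu.1.1 + η * Uu.1.2‖ < 1 :=
      lt_of_le_of_lt (le_max_left _ _) (h1 ▸ hFU1)
    by_cases h4 : ‖Uu.1.1 - η * Uu.1.2‖ < 1
    · exact ⟨η, hη, hF0, h4⟩
    · refine ⟨-η, by rw [norm_neg, hη], fun X => ?_, ?_⟩
      · rw [hF0 X, neg_mul, sub_neg_eq_add, ← sub_eq_add_neg, mul_comm ‖X.1 + η * X.2‖]
      · rw [neg_mul, sub_neg_eq_add]
        by_contra h5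
        have := one_le_mul_of_one_le_of_one_le (not_lt.1 h4) (not_lt.1 h5)
        linarith
  have hH : ‖((ε, 1) : Ω × Ω)‖ = 1 := norm_pair_one hε.le
  have hH' : ‖((-ε, 1) : Ω × Ω)‖ = 1 := norm_pair_one (by rw [norm_neg]; exact hε.le)
  have wH : ∀ X : Ω × Ω, wd X (ε, 1) = X.1 - ε * X.2 := fun X => by unfold wd; ring
  have wH' : ∀ X : Ω × Ω, wd X (-ε, 1) = X.1 + ε * X.2 := fun X => by unfold wd; ring
  have nearF : ∀ X : Ω × Ω, ‖X‖ = 1 → ‖wd X (ε, 1)‖ < 1 → ‖X.2‖ = 1 ∧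
      ‖T.S.F X‖ = max ‖wd X (ε, 1)‖ p := by
    intro X hX hlt
    rw [wH] at hlt
    obtain ⟨h3, h4⟩ := near hε h2 hX hlt
    refine ⟨h3, ?_⟩
    rw [hF, h3, h4, wH]
    norm_num
  have farF : ∀ X : UV Ω, 1 ≤ ‖wd X.1 (ε, 1)‖ → 1 ≤ ‖wd X.1 (-ε, 1)‖ → 0 ≤ hh T.S X := by
    intro X h3 h4
    rw [wH] at h3
    rw [wH'] at h4
    refine Real.log_nonneg ?_
    rw [hF]
    exact (one_le_mul_of_one_le_of_one_le h3 h4).trans (le_max_left _ _)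
  -- `U`
  have hUV : ‖wd Uu.1 Vu.1‖ = p := by rw [hU, hV, T.hρ, hp]
  have hVU : ‖wd Vu.1 Uu.1‖ = p := by rw [wd_comm, norm_neg, hUV]
  obtain ⟨δ, hδ⟩ : ∃ δ, δ = ‖wd Uu.1 (ε, 1)‖ := ⟨_, rfl⟩
  have hδ1 : δ < 1 := by rw [hδ, wH]; exact hn
  have hHU : ‖wd (ε, 1) Uu.1‖ = δ := by rw [wd_comm, norm_neg, hδ]
  obtain ⟨yU, nU⟩ := nearF Uu.1 Uu.2 (by rw [← hδ]; exact hδ1)
  rw [← hδ] at nU
  have hVH : ‖wd Vu.1 (ε, 1)‖ ≤ max p δ := by
    have := wd_ultra Vu.2 hH Uu.2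
    rwa [hVU, ← hδ] at this
  have hVH1 : ‖wd Vu.1 (ε, 1)‖ < 1 := lt_of_le_of_lt hVH (max_lt hp1 hδ1)
  obtain ⟨yV, nV⟩ := nearF Vu.1 Vu.2 hVH1
  have cU := hc Uu.1
  rw [yU, wd_F, ← hU] at cU
  have cV := hc Vu.1
  rw [yV, wd_F, ← hU] at cV
  simp only [one_pow, mul_one] at cU cV
  rcases le_or_gt δ p with hA | hB
  · -- Case A
    rw [max_eq_right hA] at nU
    rw [max_eq_left hA] at hVH
    rw [max_eq_right hVH] at nV
    rw [nU] at cU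
    rw [nV] at cV
    have cU1 : ‖wd (fU T.S Uu).1 Uu.1‖ = 1 := by
      apply mul_left_cancel₀ hp0.ne'
      rw [cU, mul_one]
    have cV1 : ‖wd (fU T.S Vu).1 Uu.1‖ = 1 := by
      apply mul_left_cancel₀ hp0.ne'
      rw [cV, mul_one]
    have farU : 1 ≤ ‖wd (fU T.S Uu).1 (ε, 1)‖ := by
      have h3 := wd_ultra (fU T.S Uu).2 Uu.2 hH
      rw [cU1, hHU] at h3
      rcases le_max_iff.1 h3 with h4 | h4
      · exact h4
      · linarith
    have farV : 1 ≤ ‖wd (fU T.S Vu).1 (ε, 1)‖ := by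
      have h3 := wd_ultra (fU T.S Vu).2 Uu.2 hH
      rw [cV1, hHU] at h3
      rcases le_max_iff.1 h3 with h4 | h4
      · exact h4
      · linarith
    have hxy : ‖Uu.1.1 * Vu.1.2 + Vu.1.1 * Uu.1.2‖ = 1 := by
      have e1 : Uu.1.1 * Vu.1.2 + Vu.1.1 * Uu.1.2 =
          ((Uu.1.1 - ε * Uu.1.2) * Vu.1.2 + (Vu.1.1 - ε * Vu.1.2) * Uu.1.2) +
            2 * (ε * (Uu.1.2 * Vu.1.2)) := by ring
      have e2 : ‖2 * (ε * (Uu.1.2 * Vu.1.2))‖ = 1 := by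
        rw [norm_mul, norm_mul, norm_mul, h2, hε, yU, yV]
        norm_num
      rw [e1, uadd_eq, e2]
      rw [e2]
      refine lt_of_le_of_lt (uadd _ _) (max_lt ?_ ?_)
      · rw [norm_mul, yV, mul_one]
        exact hn
      · rw [norm_mul, yU, mul_one]
        rw [wH] at hVH1
        exact hVH1
    have hff : ‖wd (fU T.S Uu).1 (fU T.S Vu).1‖ = 1 := by
      have h3 := hdd Uu.1 Vu.1
      rw [hxy, hUV, mul_one, wd_F, nU, wd_comm, norm_neg, wd_F, nV, wd_comm, norm_neg] at h3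
      have h4 : p * p ≠ 0 := (mul_pos hp0 hp0).ne'
      apply mul_left_cancel₀ h4
      rw [mul_one, mul_assoc]
      exact h3
    have h3 := wd_ultra (fU T.S Uu).2 (fU T.S Vu).2 hH'
    rw [hff] at h3
    rcases le_max_iff.1 h3 with h4 | h4
    · have h5 := farF _ farU h4
      linarith [bU.1, bV.1, bfV.1]
    · rw [wd_comm, norm_neg] at h4
      have h5 := farF _ farV h4
      linarith [bU.1, bV.1, bfU.1]
  · -- Case B
    have hδ0 : 0 < δ := hp0.trans hB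
    rw [max_eq_left hB.le] at nU
    have hVH2 : ‖wd Vu.1 (ε, 1)‖ = δ := by
      rw [wd_eq Vu.2 hH Uu.2 (by rw [hVU, ← hδ]; exact hB), ← hδ]
    rw [hVH2, max_eq_left hB.le] at nV
    have eU : hh T.S Uu = Real.log δ := by unfold hh; rw [nU]
    have eV : hh T.S Vu = Real.log δ := by unfold hh; rw [nV]
    rw [nU] at cU
    rw [nV] at cV
    by_cases hs : -(T.ρ) ≤ Real.log δ
    · rw [eU, eV]
      linarith [bfU.1, bfV.1]
    · push Not at hs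
      have hlq : Real.log (p / δ) = -(2 * T.ρ) - Real.log δ := by
        rw [Real.log_div hp0.ne' hδ0.ne', hlp]
      have hq1 : p / δ < 1 := (div_lt_one hδ0).2 hB
      have hq0 : 0 < p / δ := div_pos hp0 hδ0
      have hqδ : δ < p / δ := by
        rw [← Real.log_lt_log_iff hδ0 hq0, hlq]
        linarith
      have cU1 : ‖wd Uu.1 (fU T.S Uu).1‖ = p / δ := by
        rw [wd_comm, norm_neg, eq_div_iff hδ0.ne', mul_comm]
        exact cU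
      have cV1 : ‖wd Uu.1 (fU T.S Vu).1‖ = p / δ := by
        rw [wd_comm, norm_neg, eq_div_iff hδ0.ne', mul_comm]
        exact cV
      have gU : Real.log (p / δ) ≤ hh T.S (fU T.S Uu) := by
        have h3 : ‖wd (ε, 1) (fU T.S Uu).1‖ = p / δ := by
          rw [wd_eq hH (fU T.S Uu).2 Uu.2 (by rw [hHU, cU1]; exact hqδ), cU1]
        rw [wd_comm, norm_neg] at h3
        obtain ⟨-, h4⟩ := nearF _ (fU T.S Uu).2 (by rw [h3]; exact hq1)
        unfold hh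
        rw [h4, h3]
        exact Real.log_le_log hq0 (le_max_left _ _)
      have gV : Real.log (p / δ) ≤ hh T.S (fU T.S Vu) := by
        have h3 : ‖wd (ε, 1) (fU T.S Vu).1‖ = p / δ := by
          rw [wd_eq hH (fU T.S Vu).2 Uu.2 (by rw [hHU, cV1]; exact hqδ), cV1]
        rw [wd_comm, norm_neg] at h3
        obtain ⟨-, h4⟩ := nearF _ (fU T.S Vu).2 (by rw [h3]; exact hq1)
        unfold hh
        rw [h4, h3]
        exact Real.log_le_log hq0 (le_max_left _ _)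
      rw [hlq] at gU gV
      rw [eU] at bU
      rw [eU, eV]
      linarith [bU.1]

end

/-- POS -/
theorem t_POS (hG : S_GRN.{u}) : S_POS.{u} := by
  intro Ω _ _ _ hn T h0
  obtain ⟨-, hb, hG0, hG1, -, hE, -⟩ := hG Ω hn T
  have hd := T.hd
  have h2 : ‖(2 : Ω)‖ = 1 := by
    have := hn 2 (by norm_num)
    exact_mod_cast this
  have hd2 : (2 : ℝ) ≤ T.S.d := by exact_mod_cast hd
  have hdp : (0 : ℝ) < (T.S.d : ℝ) - 1 := by linarith
  let Uu : UV Ω := ⟨T.U, T.hU⟩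
  let Vu : UV Ω := ⟨T.V, T.hV⟩
  have F1 : T.S.F (e1 Ω).1 = T.U := by
    rw [T.hF]
    show (1 : Ω) ^ T.S.d • T.U + (0 : Ω) ^ T.S.d • T.V = T.U
    rw [one_pow, zero_pow (by omega), one_smul, zero_smul, add_zero]
  have F2 : T.S.F (e2 Ω).1 = T.V := by
    rw [T.hF]
    show (0 : Ω) ^ T.S.d • T.U + (1 : Ω) ^ T.S.d • T.V = T.V
    rw [one_pow, zero_pow (by omega), one_smul, zero_smul, zero_add]
  have g1 : (T.S.d : ℝ) * G0 T.S (e1 Ω) = G0 T.S Uu := by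
    have e : eqv (fU T.S (e1 Ω)) Uu := by
      have h3 := wd_F T.S (e1 Ω) T.U
      rw [F1, wd_self, norm_zero, T.hU, one_mul] at h3
      exact norm_eq_zero.1 h3.symm
    have h3 := hG1 (e1 Ω)
    have h4 : hh T.S (e1 Ω) = 0 := by unfold hh; rw [F1, T.hU, Real.log_one]
    rw [(hE _ _ e).2.1, h4, sub_zero] at h3
    exact h3.symm
  have g2 : (T.S.d : ℝ) * G0 T.S (e2 Ω) = G0 T.S Vu := by
    have e : eqv (fU T.S (e2 Ω)) Vu := by
      have h3 := wd_F T.S (e2 Ω) T.V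
      rw [F2, wd_self, norm_zero, T.hV, one_mul] at h3
      exact norm_eq_zero.1 h3.symm
    have h3 := hG1 (e2 Ω)
    have h4 : hh T.S (e2 Ω) = 0 := by unfold hh; rw [F2, T.hV, Real.log_one]
    rw [(hE _ _ e).2.1, h4, sub_zero] at h3
    exact h3.symm
  have hLC : LC T = ((T.S.d : ℝ) - 1) / T.S.d * (G0 T.S Uu + G0 T.S Vu) + 2 * T.ρ := by
    unfold LC gg
    have h3 : wd (e1 Ω).1 (e2 Ω).1 = 1 := by
      unfold wd e1 e2
      simp
    rw [h3, norm_one, Real.log_one, T.hRes, ← g1, ← g2]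
    have h4 : (T.S.d : ℝ) ≠ 0 := by linarith
    have h5 : (T.S.d : ℝ) - 1 ≠ 0 := hdp.ne'
    field_simp
    ring
  rw [hLC]
  rcases Nat.lt_or_ge 2 T.S.d with h3 | h3
  · -- `d ≥ 3`
    have h4 : (3 : ℝ) ≤ T.S.d := by exact_mod_cast h3
    have h5 := (hG0 Uu).1
    have h6 := (hG0 Vu).1
    have h7 : -(4 * T.ρ / ((T.S.d : ℝ) - 1)) ≤ G0 T.S Uu + G0 T.S Vu := by
      have : 4 * T.ρ / ((T.S.d : ℝ) - 1) = 2 * T.ρ / ((T.S.d : ℝ) - 1) +
        2 * T.ρ / ((T.S.d : ℝ) - 1) := by ring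
      linarith
    have h8 : ((T.S.d : ℝ) - 1) / T.S.d * (-(4 * T.ρ / ((T.S.d : ℝ) - 1))) ≤
        ((T.S.d : ℝ) - 1) / T.S.d * (G0 T.S Uu + G0 T.S Vu) :=
      mul_le_mul_of_nonneg_left h7 (by positivity)
    have h9 : ((T.S.d : ℝ) - 1) / T.S.d * (-(4 * T.ρ / ((T.S.d : ℝ) - 1))) =
        -(4 * T.ρ / T.S.d) := by
      have h4 : (T.S.d : ℝ) ≠ 0 := by linarith
      have h5 : (T.S.d : ℝ) - 1 ≠ 0 := hdp.ne'
      field_simp
    have h10 : 4 * T.ρ / T.S.d ≤ 4 * T.ρ / 3 := by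
      apply div_le_div_of_nonneg_left (by linarith) (by norm_num) h4
    rw [h9] at h8
    linarith
  · -- `d = 2`
    have hd' : T.S.d = 2 := le_antisymm h3 hd
    have key := sharp h2 T hd' h0 hb Uu Vu rfl rfl
    have lo : ∀ X : UV Ω, hh T.S X / 2 + hh T.S (fU T.S X) / 4 - T.ρ / 2 ≤ G0 T.S X := by
      intro X
      have h4 := hG1 X
      have h5 := hG1 (fU T.S X)
      have h6 := (hG0 (fU T.S (fU T.S X))).1
      rw [hd'] at h4 h5 h6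
      norm_num at h4 h5 h6
      linarith
    have l1 := lo Uu
    have l2 := lo Vu
    rw [hd']
    norm_num
    linarith

end Pool.Agent.Y672.BI
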